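import Pool.Agent.helper70.NZ.SpecB
import Pool.Agent.helper59.FI.Base

set_option autoImplicit false

namespace Pool.Agent.ND.NY.E

open Pool.Agent.helper58.DC Pool.Agent.DI Pool.Agent.GR Pool.Agent.OB Pool.Agent.DR Pool.Agent.FI Pool.Agent.FI3 Pool.Agent.FI4 Pool.Agent.FI4I Pool.Agent.LE Pool.Agent.L5 Pool.Agent.NAB Pool.Agent.NE
open Pool.Agent.ZB (Pm Om KZ EQ BQ lQ MZc BDK)

theorem YUX (hYCV : Pool.Agent.NE.YCV_stmt) (hYUL : YUL_stmt) (hYDF : Pool.Agent.NE.YDF_stmt) (hYGW : Pool.Agent.NE.YGW_stmt) (hYSW : YSW_stmt) (hYBE : YBE_stmt)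
    (hEXB : Pool.Agent.FI.EXB_stmt) (hNUB : NUB_stmt) (hNUH : NUH_stmt) (hNUD : NUD_stmt) (hDEX : Pool.Agent.FI.DEX_stmt) (hDGL : Pool.Agent.FI.DGL_stmt)
    (hZNU : ZNU_stmt) (hZGP : Pool.Agent.ND.ZGP_stmt) (hCJG : Pool.Agent.FI.CJG_stmt) (hCNTL : Pool.Agent.FI.CNTL_stmt) : YUX_stmt := by
  intro p e m t M hS G _ _ N χ Z z x w hW θ hθ θ' hθ' hmt
  have hp : p.Prime := hS.pr
  obtain ⟨hθI, hθS, z₂, x₂, hU₂, hZ₂⟩ := hθ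
  have hem := hW.zn.em
  obtain ⟨⟨w1, w2, w3⟩, w4, w5, -, -, -, s, hs1, hs2, hs3⟩ := hYGW p hp G N Z w hW.ww
  obtain ⟨-, -, -, b1, -, -, -, b2⟩ := hYBE p e m t M hS G N χ Z z x hW.zn
  obtain ⟨-, -, -, -, c1, -⟩ := hYSW p e m t M hS G N χ Z z x hW.zn w hW.ww.nn hW.ww.nZ hW.bs
  have hZZ : Z ≤ cz Z := by
    have h := (hZGP p e m.a hp (by omega) G z hW.zn.uc.pe hW.zn.uc.od).2.2.2.2.1.2.2.2.2
    rw [hW.zn.zz] at h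
    exact h
  have hCN : (Nw N w ⊓ cz Z) ⊓ N = N ⊓ cz Z := by
    apply le_antisymm
    · exact fun y hy => ⟨hy.2, hy.1.2⟩
    · exact fun y hy => ⟨⟨w1 hy.1, hy.2⟩, hy.1⟩
  obtain ⟨χ₂, hχ₂, hS₂⟩ := hEXB p M hS G (Nw N w) Z b2 (b1.trans w1) θ' hθ'
  obtain ⟨χ₁, hχ₁, hm₁, hS₁⟩ := hYCV p M hS G N (Nw N w) (Nw N w ⊓ cz Z) w1 w3 inf_le_left θ' hθ' θ
    (by rw [hCN]; exact hθI) (by rw [hCN]; exact hmt) χ hW.zn.ch χ₂ hχ₂ hθS hS₂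
  have hU₁ : Ucl p e m M N χ₁ z x := (hNUB p e m M hS G N χ z x hW.zn.uc).1 χ₁ (SB.symm hS₁)
  have hst : ∀ g ∈ Nw N w, SB M N (cjF g χ₁) χ₁ := by
    intro g hg
    have h1 : SB M (cjS g N) (cjF g χ₁) (cjF g χ) := (hCJG G M p g N).2.1 χ₁ χ hS₁
    have hcj : cjS g N = N := cj_nz.2 (w3 hg)
    rw [hcj] at h1
    exact (h1.trans (c1 g hg)).trans (SB.symm hS₁)
  have hU : Ucl p e m M (Nw N w) χ₂ z x := hYUL p e m M hS G N w hW.ww.nn w4 χ₂ hχ₂ χ₁ hχ₁ hm₁ hst z x hU₁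
  have hloc : ∀ (Q : Subgroup G) (y : G), DefL p M (Nw N w ⊓ cz Z) θ' Q y → Nw N w ⊓ cz Q ≤ Nw N w ⊓ cz Z := by
    intro Q y hQ
    obtain ⟨l, hl, hlQ⟩ := hCNTL p M hS G (Nw N w ⊓ cz Z) Z b2 (le_inf (b1.trans w1) hZZ) θ' (by rw [inf_assoc, inf_idem]; exact hθ') θ' (SB.refl _ _) Q y hQ
    have hZQ : Z ≤ Q := by
      intro r hr
      have h1 := hlQ r hr
      have h2 : l * r * l⁻¹ = r := by
        have h3 := Subgroup.mem_centralizer_iff.mp hl.2 r hr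
        rw [← h3, mul_inv_cancel_right]
      rw [h2] at h1
      exact h1
    exact inf_le_inf_left _ (Subgroup.centralizer_le hZQ)
  obtain ⟨l, hl, hl'⟩ := hNUH p e m M hS G (Nw N w) (Nw N w ⊓ cz Z) inf_le_left θ' hθ' χ₂ hχ₂ z x hS₂ hU hloc
  refine ⟨χ₂, ⟨hem, hW.zn.eb, hW.zn.tx, hχ₂, hU, hW.zn.zz⟩, hθ', hS₂, l * z * l⁻¹, l * x * l⁻¹, hl', ?_⟩
  obtain ⟨D₂, y₂, hD₂, hzD₂, -, -⟩ := (hNUD p e m M hS G (N ⊓ cz Z) θ hθI z₂ x₂ hU₂).2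
  obtain ⟨η₀, hη₀, hη₀S⟩ := hDGL p M hS G (N ⊓ cz Z) θ hθI D₂ y₂ hD₂
  obtain ⟨D, y, hD, -⟩ := hDEX p M hS G (Nw N w ⊓ cz Z) θ' hθ'
  have hpel : ∀ u ∈ (N ⊓ cz Z) ⊔ Subgroup.zpowers s, PEl p u → u ∈ N ⊓ cz Z := by
    intro u hu hpu
    rw [← hs3] at hu
    exact ⟨w4 u hu.1 hpu, hu.2⟩
  obtain ⟨l₁, hl₁, hl₁D⟩ := hYDF p M hS G (N ⊓ cz Z) s hs2 hpel θ hθI θ' (by rw [← hs3]; exact hθ') hmt D₂
    (hD₂.le.trans inf_le_left) hD₂.pg η₀ hη₀ hη₀S D y (by rw [← hs3]; exact hD)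
  rw [← hs3] at hl₁
  have hord : orderOf (l₁⁻¹ * z₂ * l₁) = p ^ e := by
    rw [← hU₂.od]
    have h := orderOf_injective (MulAut.conj l₁⁻¹).toMonoidHom (MulAut.conj l₁⁻¹).injective z₂
    have h' : (MulAut.conj l₁⁻¹).toMonoidHom z₂ = l₁⁻¹ * z₂ * l₁ := by
      change l₁⁻¹ * z₂ * l₁⁻¹⁻¹ = _
      rw [inv_inv]
    rw [h'] at h
    exact h
  obtain ⟨k, hk, hk'⟩ := (hZNU p e m M hS hem G (Nw N w ⊓ cz Z) θ' hθ' _ _ hl').2 D y hD _ (hl₁D z₂ hzD₂) hord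
  have hz2 : Zg p e m.a (l₁⁻¹ * z₂ * l₁) = Z := by
    have h := (hZGP p e m.a hp (by omega) G z₂ hU₂.pe hU₂.od).1 l₁⁻¹
    have hcj : cjS l₁⁻¹ Z = Z := cj_nz.2 (cz_le_nz Z (inv_mem hl₁.2))
    rw [inv_inv, hZ₂, hcj] at h
    exact h
  rw [hk', hz2]
  exact cj_nz.2 (cz_le_nz Z hk.2)

end Pool.Agent.ND.NY.E
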